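import Pool.Agent.Helper67.DY.Hist
import Pool.Agent.Helper67.PY.Hit
import Pool.Agent.Helper68.DY.Hist

/-!
# What is seen from the top of a column of a histogram

`Q.see_int`: a vertex that sees, inside the region, the point `(px, h i)` of the top edge of column
`i`, is one of the ends of the top edge, the vertex `V (2 a)` (`a` = the right end of the previous
lower column, or the base corner) or the vertex `V (2 b + 1)` (`b` = the next lower column, or the base
corner), provided the line through these two corners comes down before the corner column ends.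

`Q.see_ext`: the same in the exterior, with the previous and next higher columns.
-/

namespace Pool.Agent.Helper67.DY

open Set Pool.Agent.Helper67.PY

namespace Hist

variable (Q : Hist)

theorem hext_eq_even {k : ℕ} (hk : k ≤ Q.N) :
    Helper68.DY.hext Q.N Q.h k = Q.H (2 * k) := by
  unfold Helper68.DY.hext H
  rcases Nat.eq_zero_or_pos k with h | h
  · subst h; simp
  · rw [if_neg (by omega), if_neg (by omega), show (2 * k - 1) / 2 = k - 1 by omega]

theorem hext_eq_odd {k : ℕ} (hk : k ≤ Q.N) :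
    Helper68.DY.hext Q.N Q.h (k + 1) = Q.H (2 * k + 1) := by
  unfold Helper68.DY.hext H
  rcases Nat.lt_or_ge k Q.N with h | h
  · rw [if_neg (by omega), if_neg (by omega), show (2 * k + 1 - 1) / 2 = k by omega,
      Nat.add_sub_cancel]
  · have : k = Q.N := le_antisymm hk h
    subst this
    rw [if_pos (Or.inr (Nat.lt_succ_self _)), if_pos (Or.inr rfl)]

theorem boundary_eq : Q.poly.boundary = Helper68.DY.hcurve0 Q.N Q.x Q.h := by
  ext p
  rw [Q.mem_boundary]
  unfold Helper68.DY.hcurve0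
  simp only [mem_union, mem_ofPred_eq]
  rw [or_assoc]
  refine or_congr Iff.rfl (or_congr ?_ ?_)
  · constructor
    · rintro ⟨k, h1, h2⟩
      exact ⟨k, h1, h2⟩
    · rintro ⟨k, h1, h2⟩
      exact ⟨k, h1, h2⟩
  · constructor
    · rintro ⟨k, hk, h2, h3⟩
      rw [mem_uIcc, ] at h3
      refine ⟨k, hk, h2, ?_⟩
      rw [Q.hext_eq_even hk, Q.hext_eq_odd hk]
      rcases h3 with h3 | h3
      · exact ⟨(min_le_left _ _).trans h3.1, h3.2.trans (le_max_right _ _)⟩
      · exact ⟨(min_le_right _ _).trans h3.1, h3.2.trans (le_max_left _ _)⟩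
    · rintro ⟨k, hk, h2, h3⟩
      rw [Q.hext_eq_even hk, Q.hext_eq_odd hk] at h3
      exact ⟨k, hk, h2, h3⟩

theorem region_eq : Q.poly.region = Helper68.DY.reg (Helper68.DY.hcurve0 Q.N Q.x Q.h) := by
  unfold OrthPolygon.region Helper68.DY.reg
  rw [Q.boundary_eq]

theorem exterior_eq :
    Q.poly.exterior = closure (Helper68.DY.reg (Helper68.DY.hcurve0 Q.N Q.x Q.h))ᶜ := by
  unfold OrthPolygon.exterior
  rw [Q.region_eq]

theorem hx' : ∀ k, k < Q.N → Q.x k < Q.x (k + 1) := fun k hk => Q.hx k (k + 1) (by omega) hk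

theorem above {k : ℕ} (hk : k < Q.N) {q : ℝ × ℝ} (h1 : Q.x k < q.1) (h2 : q.1 < Q.x (k + 1))
    (h3 : Q.h k < q.2) : q ∉ Q.poly.region := by
  rw [Q.region_eq]
  exact Helper68.DY.above Q.hx' k hk (Q.hpos k hk).le h1 h2 h3

theorem inside {k : ℕ} (hk : k < Q.N) {q : ℝ × ℝ} (h1 : Q.x k < q.1) (h2 : q.1 < Q.x (k + 1))
    (h3 : 0 < q.2) (h4 : q.2 < Q.h k) : q ∉ Q.poly.exterior := by
  rw [Q.exterior_eq]
  exact Helper68.DY.inside Q.hx' k hk h1 h2 h3 h4

theorem top_region {k : ℕ} (hk : k < Q.N) {a : ℝ} (h1 : Q.x k ≤ a) (h2 : a ≤ Q.x (k + 1)) :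
    (a, Q.h k) ∈ Q.poly.region := by
  rw [Q.region_eq]
  exact Helper68.DY.top_mem k hk h1 h2

theorem top_exterior {k : ℕ} (hk : k < Q.N) {a : ℝ} (h1 : Q.x k < a) (h2 : a < Q.x (k + 1)) :
    (a, Q.h k) ∈ Q.poly.exterior := by
  rw [Q.exterior_eq]
  exact Helper68.DY.top_mem_exterior Q.hx' k hk (Q.hpos k hk).le h1 h2

/-- the point with parameter `t` of the segment from `p` to `v` -/
theorem point_mem (p v : ℝ × ℝ) {t : ℝ} (h0 : 0 ≤ t) (h1 : t ≤ 1) :
    (p.1 + t * (v.1 - p.1), p.2 + t * (v.2 - p.2)) ∈ segment ℝ p v := by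
  rw [segment_eq_image']
  exact ⟨t, ⟨h0, h1⟩, by ext <;> simp⟩

/-- a parameter between `t0` and the three bounds -/
theorem exists_param {t0 a b : ℝ} (h1 : t0 < a) (h2 : t0 < b) (h3 : t0 < 1) :
    ∃ t, t0 < t ∧ t < a ∧ t < b ∧ t < 1 := by
  obtain ⟨t, ht1, ht2⟩ := exists_between (lt_min h1 (lt_min h2 h3))
  exact ⟨t, ht1, ht2.trans_le (min_le_left _ _),
    ht2.trans_le ((min_le_right _ _).trans (min_le_left _ _)),
    ht2.trans_le ((min_le_right _ _).trans (min_le_right _ _))⟩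

/-- A vertex above the witness is not seen in the region. -/
theorem not_up {i : ℕ} (hi : i < Q.N) {px : ℝ} (h1 : Q.x i < px) (h2 : px < Q.x (i + 1))
    {v : ℝ × ℝ} (hv : Q.h i < v.2) (hs : segment ℝ (px, Q.h i) v ⊆ Q.poly.region) : False := by
  -- small parameter
  obtain ⟨t, ht0, ht1, ht2⟩ : ∃ t : ℝ, 0 < t ∧ t ≤ 1 ∧
      (Q.x i < px + t * (v.1 - px) ∧ px + t * (v.1 - px) < Q.x (i + 1)) := by
    have hpos : 0 < |v.1 - px| + 1 := by positivity
    have hm : 0 < min (px - Q.x i) (Q.x (i + 1) - px) := lt_min (by linarith) (by linarith)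
    refine ⟨min 1 (min (px - Q.x i) (Q.x (i + 1) - px) / (|v.1 - px| + 1)), ?_, min_le_left _ _, ?_⟩
    · exact lt_min one_pos (div_pos hm hpos)
    · set t := min 1 (min (px - Q.x i) (Q.x (i + 1) - px) / (|v.1 - px| + 1)) with ht
      have ht0 : 0 < t := lt_min one_pos (div_pos hm hpos)
      have ht3 : t * (|v.1 - px| + 1) ≤ min (px - Q.x i) (Q.x (i + 1) - px) := by
        rw [← le_div_iff₀ hpos]
        exact min_le_right _ _
      have ht4 : t * |v.1 - px| < min (px - Q.x i) (Q.x (i + 1) - px) := by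
        have : t * |v.1 - px| < t * (|v.1 - px| + 1) := by nlinarith
        linarith
      have ht5 : |t * (v.1 - px)| < min (px - Q.x i) (Q.x (i + 1) - px) := by
        rw [abs_mul, abs_of_pos ht0]
        exact ht4
      have ht6 := abs_lt.1 (ht5.trans_le (min_le_left _ _))
      have ht7 := abs_lt.1 (ht5.trans_le (min_le_right _ _))
      exact ⟨by linarith [ht6.1], by linarith [ht7.2]⟩
  refine Q.above hi (q := (px + t * (v.1 - px), Q.h i + t * (v.2 - Q.h i))) ht2.1 ht2.2 ?_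
    (hs (point_mem (px, Q.h i) v ht0.le ht1))
  have : 0 < t * (v.2 - Q.h i) := mul_pos ht0 (by linarith)
  show Q.h i < Q.h i + t * (v.2 - Q.h i)
  linarith

/-- A vertex below the witness is not seen in the exterior. -/
theorem not_down {i : ℕ} (hi : i < Q.N) {px : ℝ} (h1 : Q.x i < px) (h2 : px < Q.x (i + 1))
    {v : ℝ × ℝ} (hv : v.2 < Q.h i) (hv0 : 0 ≤ v.2)
    (hs : segment ℝ (px, Q.h i) v ⊆ Q.poly.exterior) : False := by
  obtain ⟨t, ht0, ht1, ht2⟩ : ∃ t : ℝ, 0 < t ∧ t < 1 ∧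
      (Q.x i < px + t * (v.1 - px) ∧ px + t * (v.1 - px) < Q.x (i + 1)) := by
    have hpos : 0 < |v.1 - px| + 1 := by positivity
    have hm : 0 < min (px - Q.x i) (Q.x (i + 1) - px) := lt_min (by linarith) (by linarith)
    refine ⟨min (1 / 2) (min (px - Q.x i) (Q.x (i + 1) - px) / (|v.1 - px| + 1)), ?_,
      (min_le_left _ _).trans_lt (by norm_num), ?_⟩
    · exact lt_min (by norm_num) (div_pos hm hpos)
    · set t := min (1 / 2) (min (px - Q.x i) (Q.x (i + 1) - px) / (|v.1 - px| + 1)) with ht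
      have ht0 : 0 < t := lt_min (by norm_num) (div_pos hm hpos)
      have ht3 : t * (|v.1 - px| + 1) ≤ min (px - Q.x i) (Q.x (i + 1) - px) := by
        rw [← le_div_iff₀ hpos]
        exact min_le_right _ _
      have ht4 : t * |v.1 - px| < min (px - Q.x i) (Q.x (i + 1) - px) := by
        have : t * |v.1 - px| < t * (|v.1 - px| + 1) := by nlinarith
        linarith
      have ht5 : |t * (v.1 - px)| < min (px - Q.x i) (Q.x (i + 1) - px) := by
        rw [abs_mul, abs_of_pos ht0]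
        exact ht4
      have ht6 := abs_lt.1 (ht5.trans_le (min_le_left _ _))
      have ht7 := abs_lt.1 (ht5.trans_le (min_le_right _ _))
      exact ⟨by linarith [ht6.1], by linarith [ht7.2]⟩
  have hh := Q.hpos i hi
  have hprod : 0 < t * (Q.h i - v.2) := mul_pos ht0 (by linarith)
  have hprod2 : t * (Q.h i - v.2) < Q.h i := by nlinarith
  refine Q.inside hi (q := (px + t * (v.1 - px), Q.h i + t * (v.2 - Q.h i))) ht2.1 ht2.2 ?_ ?_
    (hs (point_mem (px, Q.h i) v ht0.le ht1.le))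
  · show 0 < Q.h i + t * (v.2 - Q.h i)
    linarith
  · show Q.h i + t * (v.2 - Q.h i) < Q.h i
    linarith

/-- Region, to the right: the line to a vertex beyond the next lower column `j` passes above `l_j`. -/
theorem not_far_right {i j : ℕ} (hj : j < Q.N) {px : ℝ} (h2 : px < Q.x j)
    (hlow : Q.h j < Q.h i)
    {v : ℝ × ℝ} (hv : v.2 ≤ Q.h i) (hv1 : Q.x j < v.1)
    (hc : (Q.h i - v.2) * (Q.x j - px) < (Q.h i - Q.h j) * (v.1 - px))
    (hs : segment ℝ (px, Q.h i) v ⊆ Q.poly.region) : False := by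
  have hw : 0 < v.1 - px := by linarith
  have hxj := Q.hx' j hj
  have hd : 0 < Q.h i - Q.h j := by linarith
  have hvi : 0 ≤ Q.h i - v.2 := by linarith
  -- the bounds
  have e1 : (Q.x j - px) / (v.1 - px) < 1 := by rw [div_lt_one hw]; linarith
  have e2 : (Q.x j - px) / (v.1 - px) < (Q.x (j + 1) - px) / (v.1 - px) :=
    div_lt_div_of_pos_right (by linarith) hw
  have e3 : (Q.x j - px) / (v.1 - px) < (Q.h i - Q.h j) / (Q.h i - v.2) ∨ Q.h i - v.2 = 0 := by
    rcases hvi.eq_or_lt with h | h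
    · exact Or.inr h.symm
    · left
      rw [div_lt_div_iff₀ hw h]
      linarith
  obtain ⟨t, ht1, ht2, ht3, ht4⟩ : ∃ t : ℝ, (Q.x j - px) / (v.1 - px) < t ∧
      t < (Q.x (j + 1) - px) / (v.1 - px) ∧ t * (Q.h i - v.2) < Q.h i - Q.h j ∧ t < 1 := by
    rcases e3 with e3 | e3
    · obtain ⟨t, ht1, ht2, ht3, ht4⟩ := exists_param e2 e3 e1
      rcases hvi.eq_or_lt with h | h
      · exact ⟨t, ht1, ht2, by rw [← h]; linarith, ht4⟩
      · exact ⟨t, ht1, ht2, by rwa [lt_div_iff₀ h] at ht3, ht4⟩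
    · obtain ⟨t, ht1, ht2, -, ht4⟩ := exists_param e2 e2 e1
      exact ⟨t, ht1, ht2, by rw [e3]; linarith, ht4⟩
  rw [div_lt_iff₀ hw] at ht1
  rw [lt_div_iff₀ hw] at ht2
  have ht0 : 0 ≤ t := by
    by_contra h
    rw [not_le] at h
    have := mul_neg_of_neg_of_pos h hw
    linarith
  refine Q.above hj (q := (px + t * (v.1 - px), Q.h i + t * (v.2 - Q.h i))) ?_ ?_ ?_
    (hs (point_mem (px, Q.h i) v ht0 ht4.le))
  · show Q.x j < px + t * (v.1 - px)
    linarith
  · show px + t * (v.1 - px) < Q.x (j + 1)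
    linarith
  · show Q.h j < Q.h i + t * (v.2 - Q.h i)
    linarith

/-- Region, to the left: the line to a vertex beyond the previous lower column `j` passes above
`r_j`. -/
theorem not_far_left {i j : ℕ} (hj : j < Q.N) {px : ℝ} (h2 : Q.x (j + 1) < px)
    (hlow : Q.h j < Q.h i)
    {v : ℝ × ℝ} (hv : v.2 ≤ Q.h i) (hv1 : v.1 < Q.x (j + 1))
    (hc : (Q.h i - v.2) * (px - Q.x (j + 1)) < (Q.h i - Q.h j) * (px - v.1))
    (hs : segment ℝ (px, Q.h i) v ⊆ Q.poly.region) : False := by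
  have hw : 0 < px - v.1 := by linarith
  have hxj := Q.hx' j hj
  have hd : 0 < Q.h i - Q.h j := by linarith
  have hvi : 0 ≤ Q.h i - v.2 := by linarith
  have e1 : (px - Q.x (j + 1)) / (px - v.1) < 1 := by rw [div_lt_one hw]; linarith
  have e2 : (px - Q.x (j + 1)) / (px - v.1) < (px - Q.x j) / (px - v.1) :=
    div_lt_div_of_pos_right (by linarith) hw
  have e3 : (px - Q.x (j + 1)) / (px - v.1) < (Q.h i - Q.h j) / (Q.h i - v.2) ∨
      Q.h i - v.2 = 0 := by
    rcases hvi.eq_or_lt with h | h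
    · exact Or.inr h.symm
    · left
      rw [div_lt_div_iff₀ hw h]
      linarith
  obtain ⟨t, ht1, ht2, ht3, ht4⟩ : ∃ t : ℝ, (px - Q.x (j + 1)) / (px - v.1) < t ∧
      t < (px - Q.x j) / (px - v.1) ∧ t * (Q.h i - v.2) < Q.h i - Q.h j ∧ t < 1 := by
    rcases e3 with e3 | e3
    · obtain ⟨t, ht1, ht2, ht3, ht4⟩ := exists_param e2 e3 e1
      rcases hvi.eq_or_lt with h | h
      · exact ⟨t, ht1, ht2, by rw [← h]; linarith, ht4⟩
      · exact ⟨t, ht1, ht2, by rwa [lt_div_iff₀ h] at ht3, ht4⟩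
    · obtain ⟨t, ht1, ht2, -, ht4⟩ := exists_param e2 e2 e1
      exact ⟨t, ht1, ht2, by rw [e3]; linarith, ht4⟩
  rw [div_lt_iff₀ hw] at ht1
  rw [lt_div_iff₀ hw] at ht2
  have ht0 : 0 ≤ t := by
    by_contra h
    rw [not_le] at h
    have := mul_neg_of_neg_of_pos h hw
    linarith
  refine Q.above hj (q := (px + t * (v.1 - px), Q.h i + t * (v.2 - Q.h i))) ?_ ?_ ?_
    (hs (point_mem (px, Q.h i) v ht0 ht4.le))
  · show Q.x j < px + t * (v.1 - px)
    linarith
  · show px + t * (v.1 - px) < Q.x (j + 1)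
    linarith
  · show Q.h j < Q.h i + t * (v.2 - Q.h i)
    linarith

/-- Exterior, to the right: the line to a vertex beyond the next higher column `j` passes below
`l_j`. -/
theorem not_over_right {i j : ℕ} (hi : i < Q.N) (hj : j < Q.N) {px : ℝ} (h2 : px < Q.x j)
    (hhigh : Q.h i < Q.h j)
    {v : ℝ × ℝ} (hv : Q.h i ≤ v.2) (hv1 : Q.x j < v.1)
    (hc : (v.2 - Q.h i) * (Q.x j - px) < (Q.h j - Q.h i) * (v.1 - px))
    (hs : segment ℝ (px, Q.h i) v ⊆ Q.poly.exterior) : False := by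
  have hh := Q.hpos i hi
  have hw : 0 < v.1 - px := by linarith
  have hxj := Q.hx' j hj
  have hd : 0 < Q.h j - Q.h i := by linarith
  have hvi : 0 ≤ v.2 - Q.h i := by linarith
  have e1 : (Q.x j - px) / (v.1 - px) < 1 := by rw [div_lt_one hw]; linarith
  have e2 : (Q.x j - px) / (v.1 - px) < (Q.x (j + 1) - px) / (v.1 - px) :=
    div_lt_div_of_pos_right (by linarith) hw
  have e3 : (Q.x j - px) / (v.1 - px) < (Q.h j - Q.h i) / (v.2 - Q.h i) ∨ v.2 - Q.h i = 0 := by
    rcases hvi.eq_or_lt with h | h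
    · exact Or.inr h.symm
    · left
      rw [div_lt_div_iff₀ hw h]
      linarith
  obtain ⟨t, ht1, ht2, ht3, ht4⟩ : ∃ t : ℝ, (Q.x j - px) / (v.1 - px) < t ∧
      t < (Q.x (j + 1) - px) / (v.1 - px) ∧ t * (v.2 - Q.h i) < Q.h j - Q.h i ∧ t < 1 := by
    rcases e3 with e3 | e3
    · obtain ⟨t, ht1, ht2, ht3, ht4⟩ := exists_param e2 e3 e1
      rcases hvi.eq_or_lt with h | h
      · exact ⟨t, ht1, ht2, by rw [← h]; linarith, ht4⟩
      · exact ⟨t, ht1, ht2, by rwa [lt_div_iff₀ h] at ht3, ht4⟩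
    · obtain ⟨t, ht1, ht2, -, ht4⟩ := exists_param e2 e2 e1
      exact ⟨t, ht1, ht2, by rw [e3]; linarith, ht4⟩
  rw [div_lt_iff₀ hw] at ht1
  rw [lt_div_iff₀ hw] at ht2
  have ht0 : 0 ≤ t := by
    by_contra h
    rw [not_le] at h
    have := mul_neg_of_neg_of_pos h hw
    linarith
  have ht5 : 0 ≤ t * (v.2 - Q.h i) := mul_nonneg ht0 hvi
  refine Q.inside hj (q := (px + t * (v.1 - px), Q.h i + t * (v.2 - Q.h i))) ?_ ?_ ?_ ?_
    (hs (point_mem (px, Q.h i) v ht0 ht4.le))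
  · show Q.x j < px + t * (v.1 - px)
    linarith
  · show px + t * (v.1 - px) < Q.x (j + 1)
    linarith
  · show 0 < Q.h i + t * (v.2 - Q.h i)
    linarith
  · show Q.h i + t * (v.2 - Q.h i) < Q.h j
    linarith

/-- Exterior, to the left: the line to a vertex beyond the previous higher column `j` passes below
`r_j`. -/
theorem not_over_left {i j : ℕ} (hi : i < Q.N) (hj : j < Q.N) {px : ℝ} (h2 : Q.x (j + 1) < px)
    (hhigh : Q.h i < Q.h j)
    {v : ℝ × ℝ} (hv : Q.h i ≤ v.2) (hv1 : v.1 < Q.x (j + 1))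
    (hc : (v.2 - Q.h i) * (px - Q.x (j + 1)) < (Q.h j - Q.h i) * (px - v.1))
    (hs : segment ℝ (px, Q.h i) v ⊆ Q.poly.exterior) : False := by
  have hh := Q.hpos i hi
  have hw : 0 < px - v.1 := by linarith
  have hxj := Q.hx' j hj
  have hd : 0 < Q.h j - Q.h i := by linarith
  have hvi : 0 ≤ v.2 - Q.h i := by linarith
  have e1 : (px - Q.x (j + 1)) / (px - v.1) < 1 := by rw [div_lt_one hw]; linarith
  have e2 : (px - Q.x (j + 1)) / (px - v.1) < (px - Q.x j) / (px - v.1) :=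
    div_lt_div_of_pos_right (by linarith) hw
  have e3 : (px - Q.x (j + 1)) / (px - v.1) < (Q.h j - Q.h i) / (v.2 - Q.h i) ∨
      v.2 - Q.h i = 0 := by
    rcases hvi.eq_or_lt with h | h
    · exact Or.inr h.symm
    · left
      rw [div_lt_div_iff₀ hw h]
      linarith
  obtain ⟨t, ht1, ht2, ht3, ht4⟩ : ∃ t : ℝ, (px - Q.x (j + 1)) / (px - v.1) < t ∧
      t < (px - Q.x j) / (px - v.1) ∧ t * (v.2 - Q.h i) < Q.h j - Q.h i ∧ t < 1 := by
    rcases e3 with e3 | e3
    · obtain ⟨t, ht1, ht2, ht3, ht4⟩ := exists_param e2 e3 e1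
      rcases hvi.eq_or_lt with h | h
      · exact ⟨t, ht1, ht2, by rw [← h]; linarith, ht4⟩
      · exact ⟨t, ht1, ht2, by rwa [lt_div_iff₀ h] at ht3, ht4⟩
    · obtain ⟨t, ht1, ht2, -, ht4⟩ := exists_param e2 e2 e1
      exact ⟨t, ht1, ht2, by rw [e3]; linarith, ht4⟩
  rw [div_lt_iff₀ hw] at ht1
  rw [lt_div_iff₀ hw] at ht2
  have ht0 : 0 ≤ t := by
    by_contra h
    rw [not_le] at h
    have := mul_neg_of_neg_of_pos h hw
    linarith
  have ht5 : 0 ≤ t * (v.2 - Q.h i) := mul_nonneg ht0 hvi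
  refine Q.inside hj (q := (px + t * (v.1 - px), Q.h i + t * (v.2 - Q.h i))) ?_ ?_ ?_ ?_
    (hs (point_mem (px, Q.h i) v ht0 ht4.le))
  · show Q.x j < px + t * (v.1 - px)
    linarith
  · show px + t * (v.1 - px) < Q.x (j + 1)
    linarith
  · show 0 < Q.h i + t * (v.2 - Q.h i)
    linarith
  · show Q.h i + t * (v.2 - Q.h i) < Q.h j
    linarith

/-- **What is seen of the top of column `i` inside the region**, general form: only the lower
vertices beyond the blocking corner have to be hidden. -/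
theorem see_int' {i : ℕ} (hi : i < Q.N) {px : ℝ} (h1 : Q.x i < px) (h2 : px < Q.x (i + 1))
    (hinj : ∀ k, k < Q.N → Q.h k = Q.h i → k = i)
    {a b : ℕ} (hai : a ≤ i) (hib : i < b) (hbN : b ≤ Q.N)
    (hbet1 : ∀ k, a ≤ k → k < i → Q.h i < Q.h k)
    (hbet2 : ∀ k, i < k → k < b → Q.h i < Q.h k)
    (ha : 0 < a → Q.h (a - 1) < Q.h i ∧
      Q.h i * (px - Q.x a) < (Q.h i - Q.h (a - 1)) * (px - Q.x 0) ∧
      ∀ k, k < a - 1 → Q.h k < Q.h i →
        (Q.h i - Q.h k) * (px - Q.x a) < (Q.h i - Q.h (a - 1)) * (px - Q.x (k + 1)))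
    (hb : b < Q.N → Q.h b < Q.h i ∧
      Q.h i * (Q.x b - px) < (Q.h i - Q.h b) * (Q.x Q.N - px) ∧
      ∀ k, b < k → k < Q.N → Q.h k < Q.h i →
        (Q.h i - Q.h k) * (Q.x b - px) < (Q.h i - Q.h b) * (Q.x k - px))
    {v : ZMod (2 * Q.N + 2)} (hs : segment ℝ (Q.poly.pt v) (px, Q.h i) ⊆ Q.poly.region) :
    v = Q.ix (2 * i + 1) ∨ v = Q.ix (2 * i + 2) ∨ v = Q.ix (2 * a) ∨ v = Q.ix (2 * b + 1) := by
  rw [segment_symm] at hs
  have hhi := Q.hpos i hi
  have xmono : ∀ c d, c ≤ d → d ≤ Q.N → Q.x c ≤ Q.x d := by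
    intro c d hcd hd
    rcases hcd.eq_or_lt with h | h
    · rw [h]
    · exact (Q.hx c d h hd).le
  have right : ∀ k, b ≤ k → k < Q.N → Q.h k < Q.h i → ∀ w : ℝ, Q.x b < w → Q.x k ≤ w →
      ¬ segment ℝ (px, Q.h i) (w, Q.h k) ⊆ Q.poly.region := by
    intro k hbk hkN hk w hw1 hw2 hseg
    obtain ⟨hb1, -, hb2⟩ := hb (by omega)
    have e2 : px < Q.x b := h2.trans_le (xmono _ _ (by omega) hbN)
    refine Q.not_far_right (by omega) e2 hb1 (v := (w, Q.h k)) hk.le hw1 ?_ hseg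
    show (Q.h i - Q.h k) * (Q.x b - px) < (Q.h i - Q.h b) * (w - px)
    rcases hbk.eq_or_lt with h | h
    · subst h
      exact mul_lt_mul_of_pos_left (by linarith) (by linarith)
    · have e3 := hb2 k h hkN hk
      have e4 : (Q.h i - Q.h b) * (Q.x k - px) ≤ (Q.h i - Q.h b) * (w - px) :=
        mul_le_mul_of_nonneg_left (by linarith) (by linarith)
      linarith
  have left : ∀ k, k < a → Q.h k < Q.h i → ∀ w : ℝ, w < Q.x a → w ≤ Q.x (k + 1) →
      ¬ segment ℝ (px, Q.h i) (w, Q.h k) ⊆ Q.poly.region := by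
    intro k hka hk w hw1 hw2 hseg
    obtain ⟨hb1, -, hb2⟩ := ha (by omega)
    have e0 : a - 1 + 1 = a := by omega
    have e2 : Q.x a < px := (xmono _ _ hai hi.le).trans_lt h1
    refine Q.not_far_left (i := i) (j := a - 1) (by omega) (by rw [e0]; exact e2) hb1
      (v := (w, Q.h k)) hk.le (by rw [e0]; exact hw1) ?_ hseg
    rw [e0]
    show (Q.h i - Q.h k) * (px - Q.x a) < (Q.h i - Q.h (a - 1)) * (px - w)
    rcases Nat.lt_or_ge k (a - 1) with h | h
    · have e3 := hb2 k h hk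
      have e4 : (Q.h i - Q.h (a - 1)) * (px - Q.x (k + 1)) ≤ (Q.h i - Q.h (a - 1)) * (px - w) :=
        mul_le_mul_of_nonneg_left (by linarith) (by linarith)
      linarith
    · have h' : k = a - 1 := by omega
      subst h'
      exact mul_lt_mul_of_pos_left (by linarith) (by linarith)
  rcases Q.pt_cases v with rfl | rfl | ⟨k, hk, rfl⟩ | ⟨k, hk, rfl⟩
  · -- left base corner
    rcases Nat.eq_zero_or_pos a with h | h
    · subst h
      exact Or.inr (Or.inr (Or.inl rfl))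
    · exfalso
      rw [Q.pt_ix (by omega), Q.V_zero] at hs
      obtain ⟨hb1, hb2, -⟩ := ha h
      have e0 : a - 1 + 1 = a := by omega
      have e2 : Q.x a < px := (xmono _ _ hai hi.le).trans_lt h1
      refine Q.not_far_left (i := i) (j := a - 1) (by omega) (by rw [e0]; exact e2) hb1
        (v := (Q.x 0, 0)) hhi.le (by rw [e0]; exact Q.hx 0 a h (by omega)) ?_ hs
      rw [e0]
      show (Q.h i - 0) * (px - Q.x a) < (Q.h i - Q.h (a - 1)) * (px - Q.x 0)
      rw [sub_zero]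
      exact hb2
  · rcases hbN.eq_or_lt with h | h
    · subst h
      exact Or.inr (Or.inr (Or.inr rfl))
    · exfalso
      rw [Q.pt_ix (by omega), Q.V_last] at hs
      obtain ⟨hb1, hb2, -⟩ := hb h
      have e2 : px < Q.x b := h2.trans_le (xmono _ _ (by omega) hbN)
      refine Q.not_far_right h e2 hb1 (v := (Q.x Q.N, 0)) hhi.le (Q.hx b Q.N h le_rfl) ?_ hs
      show (Q.h i - 0) * (Q.x b - px) < (Q.h i - Q.h b) * (Q.x Q.N - px)
      rw [sub_zero]
      exact hb2
  · rw [Q.pt_l hk] at hs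
    rcases lt_trichotomy (Q.h k) (Q.h i) with h | h | h
    · rcases lt_trichotomy k i with h3 | h3 | h3
      · exfalso
        have h4 : k < a := by
          by_contra h5
          exact absurd (hbet1 k (by omega) h3) (by linarith)
        exact left k h4 h (Q.x k) (Q.hx k a h4 (by omega)) (xmono _ _ (by omega) (by omega)) hs
      · subst h3
        exact Or.inl rfl
      · have h4 : b ≤ k := by
          by_contra h5
          exact absurd (hbet2 k h3 (by omega)) (by linarith)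
        rcases h4.eq_or_lt with h5 | h5
        · subst h5
          exact Or.inr (Or.inr (Or.inr rfl))
        · exact (right k h4 hk h (Q.x k) (Q.hx b k h5 (by omega)) le_rfl hs).elim
    · rw [hinj k hk h]
      exact Or.inl rfl
    · exact (Q.not_up hi h1 h2 (v := (Q.x k, Q.h k)) h hs).elim
  · rw [Q.pt_r hk] at hs
    rcases lt_trichotomy (Q.h k) (Q.h i) with h | h | h
    · rcases lt_trichotomy k i with h3 | h3 | h3
      · have h4 : k < a := by
          by_contra h5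
          exact absurd (hbet1 k (by omega) h3) (by linarith)
        rcases Nat.lt_or_ge (k + 1) a with h5 | h5
        · exact (left k h4 h (Q.x (k + 1)) (Q.hx (k + 1) a h5 (by omega)) le_rfl hs).elim
        · have h6 : a = k + 1 := by omega
          subst h6
          exact Or.inr (Or.inr (Or.inl (by rw [show 2 * (k + 1) = 2 * k + 2 by ring])))
      · subst h3
        exact Or.inr (Or.inl rfl)
      · exfalso
        have h4 : b ≤ k := by
          by_contra h5
          exact absurd (hbet2 k h3 (by omega)) (by linarith)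
        exact right k h4 hk h (Q.x (k + 1)) (Q.hx b (k + 1) (by omega) (by omega))
          (xmono _ _ (by omega) (by omega)) hs
    · rw [hinj k hk h]
      exact Or.inr (Or.inl rfl)
    · exact (Q.not_up hi h1 h2 (v := (Q.x (k + 1), Q.h k)) h hs).elim

/-- **What is seen of the top of column `i` inside the region**, when the line through the blocking
corner comes down within the blocking column. -/
theorem see_int {i : ℕ} (hi : i < Q.N) {px : ℝ} (h1 : Q.x i < px) (h2 : px < Q.x (i + 1))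
    (hinj : ∀ k, k < Q.N → Q.h k = Q.h i → k = i)
    {a b : ℕ} (hai : a ≤ i) (hib : i < b) (hbN : b ≤ Q.N)
    (hbet1 : ∀ k, a ≤ k → k < i → Q.h i < Q.h k)
    (hbet2 : ∀ k, i < k → k < b → Q.h i < Q.h k)
    (ha : 0 < a → Q.h (a - 1) < Q.h i ∧
      Q.h i * (px - Q.x a) < (Q.h i - Q.h (a - 1)) * (px - Q.x (a - 1)))
    (hb : b < Q.N → Q.h b < Q.h i ∧
      Q.h i * (Q.x b - px) < (Q.h i - Q.h b) * (Q.x (b + 1) - px))
    {v : ZMod (2 * Q.N + 2)} (hs : segment ℝ (Q.poly.pt v) (px, Q.h i) ⊆ Q.poly.region) :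
    v = Q.ix (2 * i + 1) ∨ v = Q.ix (2 * i + 2) ∨ v = Q.ix (2 * a) ∨ v = Q.ix (2 * b + 1) := by
  have xmono : ∀ c d, c ≤ d → d ≤ Q.N → Q.x c ≤ Q.x d := by
    intro c d hcd hd
    rcases hcd.eq_or_lt with h | h
    · rw [h]
    · exact (Q.hx c d h hd).le
  refine Q.see_int' hi h1 h2 hinj hai hib hbN hbet1 hbet2 ?_ ?_ hs
  · intro ha0
    obtain ⟨ha1, ha2⟩ := ha ha0
    have e1 : Q.x a < px := (xmono _ _ hai hi.le).trans_lt h1
    have main : ∀ w : ℝ, w ≤ Q.x (a - 1) →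
        Q.h i * (px - Q.x a) < (Q.h i - Q.h (a - 1)) * (px - w) := by
      intro w hw
      have : (Q.h i - Q.h (a - 1)) * (px - Q.x (a - 1)) ≤ (Q.h i - Q.h (a - 1)) * (px - w) :=
        mul_le_mul_of_nonneg_left (by linarith) (by linarith)
      linarith
    refine ⟨ha1, main _ (xmono _ _ (Nat.zero_le _) (by omega)), ?_⟩
    intro k hk _
    have e2 := main (Q.x (k + 1)) (xmono _ _ (by omega) (by omega))
    have e3 : (Q.h i - Q.h k) * (px - Q.x a) ≤ Q.h i * (px - Q.x a) :=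
      mul_le_mul_of_nonneg_right (by linarith [Q.hpos k (by omega)]) (by linarith)
    linarith
  · intro hb0
    obtain ⟨hb1, hb2⟩ := hb hb0
    have e1 : px < Q.x b := h2.trans_le (xmono _ _ (by omega) hbN)
    have main : ∀ w : ℝ, Q.x (b + 1) ≤ w →
        Q.h i * (Q.x b - px) < (Q.h i - Q.h b) * (w - px) := by
      intro w hw
      have : (Q.h i - Q.h b) * (Q.x (b + 1) - px) ≤ (Q.h i - Q.h b) * (w - px) :=
        mul_le_mul_of_nonneg_left (by linarith) (by linarith)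
      linarith
    refine ⟨hb1, main _ (xmono _ _ hb0 le_rfl), ?_⟩
    intro k hk hkN _
    have e2 := main (Q.x k) (xmono _ _ (by omega) (by omega))
    have e3 : (Q.h i - Q.h k) * (Q.x b - px) ≤ Q.h i * (Q.x b - px) :=
      mul_le_mul_of_nonneg_right (by linarith [Q.hpos k (by omega)]) (by linarith)
    linarith

/-- **What is seen of the top of column `i` in the exterior.** -/
theorem see_ext {i : ℕ} (hi : i < Q.N) {px : ℝ} (h1 : Q.x i < px) (h2 : px < Q.x (i + 1))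
    (hinj : ∀ k, k < Q.N → Q.h k = Q.h i → k = i)
    {a b : ℕ} (hai : a ≤ i) (hib : i < b) (hbN : b ≤ Q.N)
    (hbet1 : ∀ k, a ≤ k → k < i → Q.h k < Q.h i)
    (hbet2 : ∀ k, i < k → k < b → Q.h k < Q.h i)
    (ha : 0 < a → Q.h i < Q.h (a - 1) ∧ ∀ k, k < a - 1 → Q.h i < Q.h k →
      (Q.h k - Q.h i) * (px - Q.x a) < (Q.h (a - 1) - Q.h i) * (px - Q.x (k + 1)))
    (hb : b < Q.N → Q.h i < Q.h b ∧ ∀ k, b < k → k < Q.N → Q.h i < Q.h k →
      (Q.h k - Q.h i) * (Q.x b - px) < (Q.h b - Q.h i) * (Q.x k - px))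
    {v : ZMod (2 * Q.N + 2)} (hs : segment ℝ (Q.poly.pt v) (px, Q.h i) ⊆ Q.poly.exterior) :
    v = Q.ix (2 * i + 1) ∨ v = Q.ix (2 * i + 2) ∨ (0 < a ∧ v = Q.ix (2 * a)) ∨
      (b < Q.N ∧ v = Q.ix (2 * b + 1)) := by
  rw [segment_symm] at hs
  have hhi := Q.hpos i hi
  have xmono : ∀ c d, c ≤ d → d ≤ Q.N → Q.x c ≤ Q.x d := by
    intro c d hcd hd
    rcases hcd.eq_or_lt with h | h
    · rw [h]
    · exact (Q.hx c d h hd).le
  have right : ∀ k, b ≤ k → k < Q.N → Q.h i < Q.h k → ∀ w : ℝ, Q.x b < w → Q.x k ≤ w →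
      ¬ segment ℝ (px, Q.h i) (w, Q.h k) ⊆ Q.poly.exterior := by
    intro k hbk hkN hk w hw1 hw2 hseg
    obtain ⟨hb1, hb2⟩ := hb (by omega)
    have e2 : px < Q.x b := h2.trans_le (xmono _ _ (by omega) hbN)
    refine Q.not_over_right hi (by omega) e2 hb1 (v := (w, Q.h k)) hk.le hw1 ?_ hseg
    show (Q.h k - Q.h i) * (Q.x b - px) < (Q.h b - Q.h i) * (w - px)
    rcases hbk.eq_or_lt with h | h
    · subst h
      exact mul_lt_mul_of_pos_left (by linarith) (by linarith)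
    · have e3 := hb2 k h hkN hk
      have e4 : (Q.h b - Q.h i) * (Q.x k - px) ≤ (Q.h b - Q.h i) * (w - px) :=
        mul_le_mul_of_nonneg_left (by linarith) (by linarith)
      linarith
  have left : ∀ k, k < a → Q.h i < Q.h k → ∀ w : ℝ, w < Q.x a → w ≤ Q.x (k + 1) →
      ¬ segment ℝ (px, Q.h i) (w, Q.h k) ⊆ Q.poly.exterior := by
    intro k hka hk w hw1 hw2 hseg
    obtain ⟨hb1, hb2⟩ := ha (by omega)
    have e0 : a - 1 + 1 = a := by omega
    have e2 : Q.x a < px := (xmono _ _ hai hi.le).trans_lt h1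
    refine Q.not_over_left (i := i) (j := a - 1) hi (by omega) (by rw [e0]; exact e2) hb1
      (v := (w, Q.h k)) hk.le (by rw [e0]; exact hw1) ?_ hseg
    rw [e0]
    show (Q.h k - Q.h i) * (px - Q.x a) < (Q.h (a - 1) - Q.h i) * (px - w)
    rcases Nat.lt_or_ge k (a - 1) with h | h
    · have e3 := hb2 k h hk
      have e4 : (Q.h (a - 1) - Q.h i) * (px - Q.x (k + 1)) ≤ (Q.h (a - 1) - Q.h i) * (px - w) :=
        mul_le_mul_of_nonneg_left (by linarith) (by linarith)
      linarith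
    · have h' : k = a - 1 := by omega
      subst h'
      exact mul_lt_mul_of_pos_left (by linarith) (by linarith)
  rcases Q.pt_cases v with rfl | rfl | ⟨k, hk, rfl⟩ | ⟨k, hk, rfl⟩
  · exfalso
    rw [Q.pt_ix (by omega), Q.V_zero] at hs
    exact Q.not_down hi h1 h2 (v := (Q.x 0, 0)) hhi le_rfl hs
  · exfalso
    rw [Q.pt_ix (by omega), Q.V_last] at hs
    exact Q.not_down hi h1 h2 (v := (Q.x Q.N, 0)) hhi le_rfl hs
  · rw [Q.pt_l hk] at hs
    have hhk := Q.hpos k hk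
    rcases lt_trichotomy (Q.h k) (Q.h i) with h | h | h
    · exact (Q.not_down hi h1 h2 (v := (Q.x k, Q.h k)) h hhk.le hs).elim
    · rw [hinj k hk h]
      exact Or.inl rfl
    · rcases lt_trichotomy k i with h3 | h3 | h3
      · exfalso
        have h4 : k < a := by
          by_contra h5
          exact absurd (hbet1 k (by omega) h3) (by linarith)
        exact left k h4 h (Q.x k) (Q.hx k a h4 (by omega)) (xmono _ _ (by omega) (by omega)) hs
      · subst h3
        exact Or.inl rfl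
      · have h4 : b ≤ k := by
          by_contra h5
          exact absurd (hbet2 k h3 (by omega)) (by linarith)
        rcases h4.eq_or_lt with h5 | h5
        · subst h5
          exact Or.inr (Or.inr (Or.inr ⟨hk, rfl⟩))
        · exact (right k h4 hk h (Q.x k) (Q.hx b k h5 (by omega)) le_rfl hs).elim
  · rw [Q.pt_r hk] at hs
    have hhk := Q.hpos k hk
    rcases lt_trichotomy (Q.h k) (Q.h i) with h | h | h
    · exact (Q.not_down hi h1 h2 (v := (Q.x (k + 1), Q.h k)) h hhk.le hs).elim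
    · rw [hinj k hk h]
      exact Or.inr (Or.inl rfl)
    · rcases lt_trichotomy k i with h3 | h3 | h3
      · have h4 : k < a := by
          by_contra h5
          exact absurd (hbet1 k (by omega) h3) (by linarith)
        rcases Nat.lt_or_ge (k + 1) a with h5 | h5
        · exact (left k h4 h (Q.x (k + 1)) (Q.hx (k + 1) a h5 (by omega)) le_rfl hs).elim
        · have h6 : a = k + 1 := by omega
          subst h6
          exact Or.inr (Or.inr (Or.inl ⟨by omega, by rw [show 2 * (k + 1) = 2 * k + 2 by ring]⟩))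
      · subst h3
        exact Or.inr (Or.inl rfl)
      · have h4 : b ≤ k := by
          by_contra h5
          exact absurd (hbet2 k h3 (by omega)) (by linarith)
        exact (right k h4 hk h (Q.x (k + 1)) (Q.hx b (k + 1) (by omega) (by omega))
          (xmono _ _ (by omega) (by omega)) hs).elim

/-- The witness set of the top of column `i` inside the region is hit by every guard set (general
form). -/
theorem hit_int' {i : ℕ} (hi : i < Q.N) {px : ℝ} (h1 : Q.x i < px) (h2 : px < Q.x (i + 1))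
    (hinj : ∀ k, k < Q.N → Q.h k = Q.h i → k = i)
    {a b : ℕ} (hai : a ≤ i) (hib : i < b) (hbN : b ≤ Q.N)
    (hbet1 : ∀ k, a ≤ k → k < i → Q.h i < Q.h k)
    (hbet2 : ∀ k, i < k → k < b → Q.h i < Q.h k)
    (ha : 0 < a → Q.h (a - 1) < Q.h i ∧
      Q.h i * (px - Q.x a) < (Q.h i - Q.h (a - 1)) * (px - Q.x 0) ∧
      ∀ k, k < a - 1 → Q.h k < Q.h i →
        (Q.h i - Q.h k) * (px - Q.x a) < (Q.h i - Q.h (a - 1)) * (px - Q.x (k + 1)))
    (hb : b < Q.N → Q.h b < Q.h i ∧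
      Q.h i * (Q.x b - px) < (Q.h i - Q.h b) * (Q.x Q.N - px) ∧
      ∀ k, b < k → k < Q.N → Q.h k < Q.h i →
        (Q.h i - Q.h k) * (Q.x b - px) < (Q.h i - Q.h b) * (Q.x k - px))
    {S : Finset (ZMod (2 * Q.N + 2))}
    (hS : ∀ p ∈ Q.poly.region, ∃ v ∈ S, segment ℝ (Q.poly.pt v) p ⊆ Q.poly.region) :
    Q.ix (2 * i + 1) ∈ S ∨ Q.ix (2 * i + 2) ∈ S ∨ Q.ix (2 * a) ∈ S ∨ Q.ix (2 * b + 1) ∈ S := by
  obtain ⟨v, hv, hs⟩ := hS _ (Q.top_region hi h1.le h2.le)
  rcases Q.see_int' hi h1 h2 hinj hai hib hbN hbet1 hbet2 ha hb hs with rfl | rfl | rfl | rfl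
  · exact Or.inl hv
  · exact Or.inr (Or.inl hv)
  · exact Or.inr (Or.inr (Or.inl hv))
  · exact Or.inr (Or.inr (Or.inr hv))

/-- The witness set of the top of column `i` inside the region is hit by every guard set. -/
theorem hit_int {i : ℕ} (hi : i < Q.N) {px : ℝ} (h1 : Q.x i < px) (h2 : px < Q.x (i + 1))
    (hinj : ∀ k, k < Q.N → Q.h k = Q.h i → k = i)
    {a b : ℕ} (hai : a ≤ i) (hib : i < b) (hbN : b ≤ Q.N)
    (hbet1 : ∀ k, a ≤ k → k < i → Q.h i < Q.h k)
    (hbet2 : ∀ k, i < k → k < b → Q.h i < Q.h k)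
    (ha : 0 < a → Q.h (a - 1) < Q.h i ∧
      Q.h i * (px - Q.x a) < (Q.h i - Q.h (a - 1)) * (px - Q.x (a - 1)))
    (hb : b < Q.N → Q.h b < Q.h i ∧
      Q.h i * (Q.x b - px) < (Q.h i - Q.h b) * (Q.x (b + 1) - px))
    {S : Finset (ZMod (2 * Q.N + 2))}
    (hS : ∀ p ∈ Q.poly.region, ∃ v ∈ S, segment ℝ (Q.poly.pt v) p ⊆ Q.poly.region) :
    Q.ix (2 * i + 1) ∈ S ∨ Q.ix (2 * i + 2) ∈ S ∨ Q.ix (2 * a) ∈ S ∨ Q.ix (2 * b + 1) ∈ S := by
  obtain ⟨v, hv, hs⟩ := hS _ (Q.top_region hi h1.le h2.le)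
  rcases Q.see_int hi h1 h2 hinj hai hib hbN hbet1 hbet2 ha hb hs with rfl | rfl | rfl | rfl
  · exact Or.inl hv
  · exact Or.inr (Or.inl hv)
  · exact Or.inr (Or.inr (Or.inl hv))
  · exact Or.inr (Or.inr (Or.inr hv))

/-- The witness set of the top of column `i` in the exterior is hit by every guard set. -/
theorem hit_ext {i : ℕ} (hi : i < Q.N) {px : ℝ} (h1 : Q.x i < px) (h2 : px < Q.x (i + 1))
    (hinj : ∀ k, k < Q.N → Q.h k = Q.h i → k = i)
    {a b : ℕ} (hai : a ≤ i) (hib : i < b) (hbN : b ≤ Q.N)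
    (hbet1 : ∀ k, a ≤ k → k < i → Q.h k < Q.h i)
    (hbet2 : ∀ k, i < k → k < b → Q.h k < Q.h i)
    (ha : 0 < a → Q.h i < Q.h (a - 1) ∧ ∀ k, k < a - 1 → Q.h i < Q.h k →
      (Q.h k - Q.h i) * (px - Q.x a) < (Q.h (a - 1) - Q.h i) * (px - Q.x (k + 1)))
    (hb : b < Q.N → Q.h i < Q.h b ∧ ∀ k, b < k → k < Q.N → Q.h i < Q.h k →
      (Q.h k - Q.h i) * (Q.x b - px) < (Q.h b - Q.h i) * (Q.x k - px))
    {S : Finset (ZMod (2 * Q.N + 2))}
    (hS : ∀ p ∈ Q.poly.exterior, ∃ v ∈ S, segment ℝ (Q.poly.pt v) p ⊆ Q.poly.exterior) :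
    Q.ix (2 * i + 1) ∈ S ∨ Q.ix (2 * i + 2) ∈ S ∨ (0 < a ∧ Q.ix (2 * a) ∈ S) ∨
      (b < Q.N ∧ Q.ix (2 * b + 1) ∈ S) := by
  obtain ⟨v, hv, hs⟩ := hS _ (Q.top_exterior hi h1 h2)
  rcases Q.see_ext hi h1 h2 hinj hai hib hbN hbet1 hbet2 ha hb hs with
    rfl | rfl | ⟨h, rfl⟩ | ⟨h, rfl⟩
  · exact Or.inl hv
  · exact Or.inr (Or.inl hv)
  · exact Or.inr (Or.inr (Or.inl ⟨h, hv⟩))
  · exact Or.inr (Or.inr (Or.inr ⟨h, hv⟩))

end Hist

end Pool.Agent.Helper67.DY
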