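import Pool.Agent.Helper67.DY.Points
import Pool.Agent.Helper67.DY.See
import Pool.Agent.Helper25.DY.Fam
import Pool.Agent.Helper54.DY.Comb

/-!
# Vertex guards for orthogonal prison yards: the lower bound `7 n / 22 - O(1)`
-/

namespace Pool.Agent.Helper67.DY

open Pool.Agent.Helper67.PY Pool.Agent.Helper25.DY Pool.Agent.Helper54.DY

/-- the column of the letter `X` (`A B C D E F G T U V W = 0, …, 10`) in period `j < m` -/
def col (m j : ℕ) (X : ℕ) : ℕ :=
  if X = 0 then 6 * (m - 1 - j) + 7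
  else if X = 1 then 6 * m + 3 + 5 * j
  else if X = 2 then 6 * m + 4 + 5 * j
  else if X = 3 then 6 * m + 5 + 5 * j
  else if X = 4 then 6 * (m - 1 - j) + 6
  else if X = 5 then 6 * m + 6 + 5 * j
  else if X = 6 then 6 * m + 7 + 5 * j
  else if X = 7 then 6 * (m - 1 - j) + 4
  else if X = 8 then 6 * (m - 1 - j) + 3
  else if X = 9 then 6 * (m - 1 - j) + 2
  else 6 * (m - 1 - j) + 5

/-- the index of the `t`-th vertex of period `j` -/
def vi (m j t : ℕ) : ℕ := 2 * col m j (t / 2) + 1 + t % 2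

theorem col_lt {m j X : ℕ} (hj : j < m) : col m j X < 11 * m + 5 := by
  unfold col
  split_ifs <;> omega

theorem vi_lt {m j t : ℕ} (hj : j < m) : vi m j t < 2 * (11 * m + 5) + 2 := by
  unfold vi
  have := @col_lt m j (t / 2) hj
  omega

theorem col_inj {m j k X Y : ℕ} (hj : j < m) (hk : k < m) (hX : X < 11) (hY : Y < 11)
    (h : col m j X = col m k Y) : j = k ∧ X = Y := by
  have e0 : ∀ i, col m i 0 = 6 * (m - 1 - i) + 7 := fun i => rfl
  have e1 : ∀ i, col m i 1 = 6 * m + 3 + 5 * i := fun i => rfl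
  have e2 : ∀ i, col m i 2 = 6 * m + 4 + 5 * i := fun i => rfl
  have e3 : ∀ i, col m i 3 = 6 * m + 5 + 5 * i := fun i => rfl
  have e4 : ∀ i, col m i 4 = 6 * (m - 1 - i) + 6 := fun i => rfl
  have e5 : ∀ i, col m i 5 = 6 * m + 6 + 5 * i := fun i => rfl
  have e6 : ∀ i, col m i 6 = 6 * m + 7 + 5 * i := fun i => rfl
  have e7 : ∀ i, col m i 7 = 6 * (m - 1 - i) + 4 := fun i => rfl
  have e8 : ∀ i, col m i 8 = 6 * (m - 1 - i) + 3 := fun i => rfl
  have e9 : ∀ i, col m i 9 = 6 * (m - 1 - i) + 2 := fun i => rfl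
  have e10 : ∀ i, col m i 10 = 6 * (m - 1 - i) + 5 := fun i => rfl
  interval_cases X <;> interval_cases Y <;>
    simp only [e0, e1, e2, e3, e4, e5, e6, e7, e8, e9, e10] at h <;> omega

theorem vi_inj {m j k s t : ℕ} (hj : j < m) (hk : k < m) (hs : s < 22) (ht : t < 22)
    (h : vi m j s = vi m k t) : j = k ∧ s = t := by
  unfold vi at h
  have h1 : s % 2 = t % 2 := by omega
  have h2 : col m j (s / 2) = col m k (t / 2) := by omega
  obtain ⟨h3, h4⟩ := col_inj hj hk (by omega) (by omega) h2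
  exact ⟨h3, by omega⟩

/-- the `t`-th vertex of period `j` -/
noncomputable def vt (m j : ℕ) (t : Fin 22) : ZMod (2 * (fam m).N + 2) := (fam m).ix (vi m j t)

theorem vt_inj {m j k : ℕ} (hj : j < m) (hk : k < m) (a b : Fin 22) (h : vt m j a = vt m k b) :
    j = k ∧ a = b := by
  have h1 := (fam m).ix_inj (vi_lt hj) (vi_lt hk) h
  obtain ⟨h2, h3⟩ := vi_inj hj hk a.2 b.2 h1
  exact ⟨h2, Fin.ext h3⟩

/-- The clauses of all periods. -/
def AllClauses (m : ℕ) : Prop :=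
  ∀ S : Finset (ZMod (2 * (fam m).N + 2)),
    (∀ p ∈ (fam m).poly.region, ∃ v ∈ S, segment ℝ ((fam m).poly.pt v) p ⊆ (fam m).poly.region) →
    (∀ p ∈ (fam m).poly.exterior,
      ∃ v ∈ S, segment ℝ ((fam m).poly.pt v) p ⊆ (fam m).poly.exterior) →
    ∀ j, j + 1 < m → ClS S (vt m j) (vt m (j + 1))

theorem lower_of {m : ℕ} (h : AllClauses m) (S : Finset (ZMod (2 * (fam m).N + 2)))
    (h1 : ∀ p ∈ (fam m).poly.region,
      ∃ v ∈ S, segment ℝ ((fam m).poly.pt v) p ⊆ (fam m).poly.region)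
    (h2 : ∀ p ∈ (fam m).poly.exterior,
      ∃ v ∈ S, segment ℝ ((fam m).poly.pt v) p ⊆ (fam m).poly.exterior) :
    7 * m - 11 ≤ S.card := by
  have := card_lower m (vt m) (fun j hj k hk a b hab => vt_inj hj hk a b hab) S (h S h1 h2)
  omega

/-- For every `m` there is an orthogonal polygon with `22 m + 12` vertices for which every set of
vertex guards has at least `7 m - 11` elements. -/
theorem exists_polygon (H : ∀ m, AllClauses m) (m : ℕ) :
    ∃ P : OrthPolygon (22 * m + 12), ∀ S : Finset (ℝ × ℝ), (∀ v ∈ S, ∃ i, P.pt i = v) →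
      (∀ p ∈ P.region, ∃ v ∈ S, segment ℝ v p ⊆ P.region) →
      (∀ p ∈ P.exterior, ∃ v ∈ S, segment ℝ v p ⊆ P.exterior) → 7 * m - 11 ≤ S.card := by
  have e : 2 * (fam m).N + 2 = 22 * m + 12 := by
    show 2 * (11 * m + 5) + 2 = 22 * m + 12
    ring
  rw [← e]
  exact ⟨(fam m).poly, lower_points (fam m).poly (fun S h1 h2 => lower_of (H m) S h1 h2)⟩

theorem disproof (H : ∀ m, AllClauses m) (c : ℝ) :
    ∃ (n : ℕ) (P : OrthPolygon n), ∀ S : Finset (ℝ × ℝ), (∀ v ∈ S, ∃ i, P.pt i = v) →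
      (∀ p ∈ P.region, ∃ v ∈ S, segment ℝ v p ⊆ P.region) →
      (∀ p ∈ P.exterior, ∃ v ∈ S, segment ℝ v p ⊆ P.exterior) →
      5 * (n : ℝ) / 16 + c < S.card := by
  obtain ⟨m, hm⟩ := exists_nat_gt (8 * c + 118)
  obtain ⟨P, hP⟩ := exists_polygon H m
  refine ⟨22 * m + 12, P, fun S h1 h2 h3 => ?_⟩
  have h4 : 7 * m ≤ S.card + 11 := by
    have := hP S h1 h2 h3
    omega
  have h5 : (7 * m : ℝ) ≤ S.card + 11 := by exact_mod_cast h4
  push_cast
  linarith

end Pool.Agent.Helper67.DY
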