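import Pool.Agent.Helper67.DY.Hist

/-!
# Counting the guards of a histogram column by column
-/

namespace Pool.Agent.Helper67.DY

open Finset

namespace Hist

variable (Q : Hist)

/-- the number of guards is at least the number of guarded ends of a family of distinct columns -/
theorem count_le (S : Finset (ZMod (2 * Q.N + 2))) {ι : Type*} (I : Finset ι)
    (f : ι → ℕ) (hf : ∀ a ∈ I, f a < Q.N) (hinj : ∀ a ∈ I, ∀ b ∈ I, f a = f b → a = b) :
    ∑ a ∈ I, ((if Q.ix (2 * f a + 1) ∈ S then 1 else 0) +
      (if Q.ix (2 * f a + 2) ∈ S then 1 else 0)) ≤ S.card := by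
  classical
  rw [sum_add_distrib, ← card_filter, ← card_filter,
    ← card_image_of_injOn (s := I.filter fun a => Q.ix (2 * f a + 1) ∈ S)
      (f := fun a => Q.ix (2 * f a + 1)),
    ← card_image_of_injOn (s := I.filter fun a => Q.ix (2 * f a + 2) ∈ S)
      (f := fun a => Q.ix (2 * f a + 2)), ← card_union_of_disjoint]
  · refine card_le_card ?_
    intro v hv
    rw [mem_union, mem_image, mem_image] at hv
    rcases hv with ⟨a, ha, rfl⟩ | ⟨a, ha, rfl⟩
    · exact (mem_filter.1 ha).2
    · exact (mem_filter.1 ha).2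
  · rw [disjoint_left]
    intro v hv1 hv2
    rw [mem_image] at hv1 hv2
    obtain ⟨a, ha, rfl⟩ := hv1
    obtain ⟨b, hb, hab⟩ := hv2
    have ha' := hf a (mem_filter.1 ha).1
    have hb' := hf b (mem_filter.1 hb).1
    have := Q.ix_inj (by omega) (by omega) hab
    omega
  · intro a ha b hb hab
    have ha0 := (mem_filter.1 (mem_coe.1 ha)).1
    have hb0 := (mem_filter.1 (mem_coe.1 hb)).1
    have ha' := hf a ha0
    have hb' := hf b hb0
    have := Q.ix_inj (by omega) (by omega) hab
    exact hinj a ha0 b hb0 (by omega)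
  · intro a ha b hb hab
    have ha0 := (mem_filter.1 (mem_coe.1 ha)).1
    have hb0 := (mem_filter.1 (mem_coe.1 hb)).1
    have ha' := hf a ha0
    have hb' := hf b hb0
    have := Q.ix_inj (by omega) (by omega) hab
    exact hinj a ha0 b hb0 (by omega)

end Hist

end Pool.Agent.Helper67.DY
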