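import Pool.Agent.Helper67.PY.Polygon

/-!
# Histograms as orthogonal polygons

`Hist`: `N` columns, column `k < N` is `[x k, x (k+1)] × [0, h k]`.  The polygon `Q.poly` has
`2 N + 2` vertices: index `0` is the left end of the base, index `2 k + 1` is the left end of the top
of column `k`, index `2 k + 2` is the right end of the top of column `k`, and index `2 N + 1` is the
right end of the base.
-/

namespace Pool.Agent.Helper67.DY

open Set Pool.Agent.Helper67.PY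

/-- A histogram with `N` columns. -/
structure Hist where
  N : ℕ
  x : ℕ → ℝ
  h : ℕ → ℝ
  hN : 0 < N
  hx : ∀ a b, a < b → b ≤ N → x a < x b
  hpos : ∀ k, k < N → 0 < h k
  hne : ∀ k, k + 1 < N → h k ≠ h (k + 1)

theorem seg_h (a b c : ℝ) (p : ℝ × ℝ) :
    p ∈ segment ℝ ((a, c) : ℝ × ℝ) (b, c) ↔ p.1 ∈ uIcc a b ∧ p.2 = c := by
  rw [← Prod.image_mk_segment_left, segment_eq_uIcc]
  constructor
  · rintro ⟨t, ht, rfl⟩
    exact ⟨ht, rfl⟩
  · rintro ⟨h1, h2⟩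
    exact ⟨p.1, h1, Prod.ext rfl h2.symm⟩

theorem seg_v (a b c : ℝ) (p : ℝ × ℝ) :
    p ∈ segment ℝ ((c, a) : ℝ × ℝ) (c, b) ↔ p.1 = c ∧ p.2 ∈ uIcc a b := by
  rw [← Prod.image_mk_segment_right, segment_eq_uIcc]
  constructor
  · rintro ⟨t, ht, rfl⟩
    exact ⟨rfl, ht⟩
  · rintro ⟨h1, h2⟩
    exact ⟨p.2, h2, Prod.ext h1.symm rfl⟩

theorem not_collinear_vh {a b c : ℝ × ℝ} (h1 : a.1 = b.1) (h2 : a.2 ≠ b.2) (h3 : b.2 = c.2)
    (h4 : b.1 ≠ c.1) : ¬ Collinear ℝ {a, b, c} := by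
  intro hc
  rw [collinear_iff_of_mem (p₀ := b) (by simp)] at hc
  obtain ⟨v, hv⟩ := hc
  obtain ⟨r, hr⟩ := hv a (by simp)
  obtain ⟨s, hs⟩ := hv c (by simp)
  have e1 : a.1 = r * v.1 + b.1 := by rw [hr]; simp
  have e2 : a.2 = r * v.2 + b.2 := by rw [hr]; simp
  have e3 : c.1 = s * v.1 + b.1 := by rw [hs]; simp
  have e4 : c.2 = s * v.2 + b.2 := by rw [hs]; simp
  have f1 : r * v.1 = 0 := by linarith
  have f2 : s * v.2 = 0 := by linarith
  have f3 : r * v.2 ≠ 0 := by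
    intro h
    apply h2
    linarith
  have hr0 : r ≠ 0 := left_ne_zero_of_mul f3
  have hv2 : v.2 ≠ 0 := right_ne_zero_of_mul f3
  have hv1 : v.1 = 0 := (mul_eq_zero.1 f1).resolve_left hr0
  apply h4
  rw [e3, hv1]
  ring

theorem not_collinear_hv {a b c : ℝ × ℝ} (h1 : a.2 = b.2) (h2 : a.1 ≠ b.1) (h3 : b.1 = c.1)
    (h4 : b.2 ≠ c.2) : ¬ Collinear ℝ {a, b, c} := by
  intro hc
  rw [collinear_iff_of_mem (p₀ := b) (by simp)] at hc
  obtain ⟨v, hv⟩ := hc
  obtain ⟨r, hr⟩ := hv a (by simp)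
  obtain ⟨s, hs⟩ := hv c (by simp)
  have e1 : a.1 = r * v.1 + b.1 := by rw [hr]; simp
  have e2 : a.2 = r * v.2 + b.2 := by rw [hr]; simp
  have e3 : c.1 = s * v.1 + b.1 := by rw [hs]; simp
  have e4 : c.2 = s * v.2 + b.2 := by rw [hs]; simp
  have f1 : r * v.2 = 0 := by linarith
  have f2 : s * v.1 = 0 := by linarith
  have f3 : r * v.1 ≠ 0 := by
    intro h
    apply h2
    linarith
  have hr0 : r ≠ 0 := left_ne_zero_of_mul f3
  have hv2 : v.1 ≠ 0 := right_ne_zero_of_mul f3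
  have hv1 : v.2 = 0 := (mul_eq_zero.1 f1).resolve_left hr0
  apply h4
  rw [e4, hv1]
  ring

namespace Hist

variable (Q : Hist)

/-- the height of the vertex with index `j` -/
noncomputable def H (j : ℕ) : ℝ := if j = 0 ∨ j = 2 * Q.N + 1 then 0 else Q.h ((j - 1) / 2)

/-- the vertex with index `j` -/
noncomputable def V (j : ℕ) : ℝ × ℝ := (Q.x (j / 2), Q.H j)

/-- the cyclic successor of an index -/
def next (j : ℕ) : ℕ := if j = 2 * Q.N + 1 then 0 else j + 1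

theorem V_zero : Q.V 0 = (Q.x 0, 0) := by simp [V, H]

theorem V_last : Q.V (2 * Q.N + 1) = (Q.x Q.N, 0) := by
  unfold V H
  rw [show (2 * Q.N + 1) / 2 = Q.N by omega, if_pos (Or.inr rfl)]

theorem V_left {k : ℕ} (hk : k < Q.N) : Q.V (2 * k + 1) = (Q.x k, Q.h k) := by
  unfold V H
  rw [show (2 * k + 1) / 2 = k by omega, if_neg (by omega), show (2 * k + 1 - 1) / 2 = k by omega]

theorem V_right {k : ℕ} (hk : k < Q.N) : Q.V (2 * k + 2) = (Q.x (k + 1), Q.h k) := by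
  unfold V H
  rw [show (2 * k + 2) / 2 = k + 1 by omega, if_neg (by omega),
    show (2 * k + 2 - 1) / 2 = k by omega]

theorem next_even {k : ℕ} : Q.next (2 * k) = 2 * k + 1 := by
  unfold next
  rw [if_neg (by omega)]

theorem next_odd {k : ℕ} (_hk : k < Q.N) : Q.next (2 * k + 1) = 2 * k + 2 := by
  unfold next
  rw [if_neg (by omega)]

theorem next_last : Q.next (2 * Q.N + 1) = 0 := by simp [next]

theorem V_even_fst (k : ℕ) : (Q.V (2 * k)).1 = Q.x k := by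
  unfold V
  rw [show 2 * k / 2 = k by omega]

theorem V_odd_fst (k : ℕ) : (Q.V (2 * k + 1)).1 = Q.x k := by
  unfold V
  rw [show (2 * k + 1) / 2 = k by omega]

theorem H_even {k : ℕ} (h1 : 1 ≤ k) (h2 : k ≤ Q.N) : Q.H (2 * k) = Q.h (k - 1) := by
  unfold H
  rw [if_neg (by omega), show (2 * k - 1) / 2 = k - 1 by omega]

theorem H_odd {k : ℕ} (h2 : k < Q.N) : Q.H (2 * k + 1) = Q.h k := by
  unfold H
  rw [if_neg (by omega), show (2 * k + 1 - 1) / 2 = k by omega]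

theorem H_zero : Q.H 0 = 0 := by simp [H]

theorem H_last : Q.H (2 * Q.N + 1) = 0 := by simp [H]

theorem side_ne {k : ℕ} (hk : k ≤ Q.N) : Q.H (2 * k) ≠ Q.H (2 * k + 1) := by
  rcases Nat.eq_zero_or_pos k with rfl | h1
  · rw [show 2 * 0 = 0 from rfl, Q.H_zero, show 0 + 1 = 2 * 0 + 1 from rfl, Q.H_odd Q.hN]
    exact (Q.hpos 0 Q.hN).ne
  · rcases Nat.lt_or_ge k Q.N with h2 | h2
    · rw [Q.H_even h1 hk, Q.H_odd h2]
      have := Q.hne (k - 1) (by omega)
      rwa [show k - 1 + 1 = k by omega] at this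
    · have : k = Q.N := le_antisymm hk h2
      subst this
      rw [Q.H_even h1 le_rfl, Q.H_last]
      exact (Q.hpos _ (by omega)).ne'

theorem vert_step {k : ℕ} (hk : k ≤ Q.N) :
    (Q.V (2 * k)).1 = (Q.V (2 * k + 1)).1 ∧ (Q.V (2 * k)).2 ≠ (Q.V (2 * k + 1)).2 :=
  ⟨by rw [Q.V_even_fst, Q.V_odd_fst], Q.side_ne hk⟩

theorem hor_step {k : ℕ} (hk : k < Q.N) :
    (Q.V (2 * k + 1)).2 = (Q.V (2 * k + 2)).2 ∧ (Q.V (2 * k + 1)).1 ≠ (Q.V (2 * k + 2)).1 := by
  rw [Q.V_left hk, Q.V_right hk]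
  exact ⟨rfl, (Q.hx k (k + 1) (by omega) (by omega)).ne⟩

theorem base_step : (Q.V (2 * Q.N + 1)).2 = (Q.V 0).2 ∧ (Q.V (2 * Q.N + 1)).1 ≠ (Q.V 0).1 := by
  rw [Q.V_last, Q.V_zero]
  exact ⟨rfl, (Q.hx 0 Q.N Q.hN le_rfl).ne'⟩

theorem even_step {j : ℕ} (hj : j < 2 * Q.N + 2) (he : j % 2 = 0) :
    (Q.V j).1 = (Q.V (Q.next j)).1 ∧ (Q.V j).2 ≠ (Q.V (Q.next j)).2 := by
  obtain ⟨k, rfl⟩ : ∃ k, j = 2 * k := ⟨j / 2, by omega⟩
  rw [Q.next_even]
  exact Q.vert_step (by omega)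

theorem odd_step {j : ℕ} (hj : j < 2 * Q.N + 2) (he : j % 2 = 1) :
    (Q.V j).2 = (Q.V (Q.next j)).2 ∧ (Q.V j).1 ≠ (Q.V (Q.next j)).1 := by
  obtain ⟨k, rfl⟩ : ∃ k, j = 2 * k + 1 := ⟨j / 2, by omega⟩
  rcases Nat.lt_or_ge k Q.N with h1 | h1
  · rw [Q.next_odd h1]
    exact Q.hor_step h1
  · have : k = Q.N := by omega
    subst this
    rw [Q.next_last]
    exact Q.base_step

theorem next_lt {j : ℕ} (hj : j < 2 * Q.N + 2) : Q.next j < 2 * Q.N + 2 := by
  unfold next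
  split_ifs <;> omega

theorem next_mod {j : ℕ} : (Q.next j) % 2 = (j + 1) % 2 := by
  unfold next
  split_ifs with h
  · subst h; omega
  · rfl

/-- the top of column `k` -/
theorem mem_top {k : ℕ} (hk : k < Q.N) (p : ℝ × ℝ) :
    p ∈ segment ℝ (Q.V (2 * k + 1)) (Q.V (Q.next (2 * k + 1))) ↔
      Q.x k ≤ p.1 ∧ p.1 ≤ Q.x (k + 1) ∧ p.2 = Q.h k := by
  rw [Q.next_odd hk, Q.V_left hk, Q.V_right hk, seg_h,
    uIcc_of_le (Q.hx k (k + 1) (by omega) (by omega)).le, mem_Icc, and_assoc]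

/-- the side between column `k - 1` and column `k` -/
theorem mem_side {k : ℕ} (p : ℝ × ℝ) :
    p ∈ segment ℝ (Q.V (2 * k)) (Q.V (Q.next (2 * k))) ↔
      p.1 = Q.x k ∧ p.2 ∈ uIcc (Q.H (2 * k)) (Q.H (2 * k + 1)) := by
  have e1 : Q.V (2 * k) = (Q.x k, Q.H (2 * k)) := Prod.ext (Q.V_even_fst k) rfl
  have e2 : Q.V (2 * k + 1) = (Q.x k, Q.H (2 * k + 1)) := Prod.ext (Q.V_odd_fst k) rfl
  rw [Q.next_even, e1, e2, seg_v]

/-- the base -/
theorem mem_base (p : ℝ × ℝ) :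
    p ∈ segment ℝ (Q.V (2 * Q.N + 1)) (Q.V (Q.next (2 * Q.N + 1))) ↔
      Q.x 0 ≤ p.1 ∧ p.1 ≤ Q.x Q.N ∧ p.2 = 0 := by
  rw [Q.next_last, Q.V_last, Q.V_zero, seg_h, uIcc_of_ge (Q.hx 0 Q.N Q.hN le_rfl).le, mem_Icc,
    and_assoc]

theorem H_pos {j : ℕ} (h1 : 1 ≤ j) (h2 : j ≤ 2 * Q.N) : 0 < Q.H j := by
  unfold H
  rw [if_neg (by omega)]
  exact Q.hpos _ (by omega)

theorem disj {a b : ℕ} (hab : a + 1 < b) (hb : b < 2 * Q.N + 2) (h0 : ¬ (a = 0 ∧ b = 2 * Q.N + 1)) :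
    Disjoint (segment ℝ (Q.V a) (Q.V (Q.next a))) (segment ℝ (Q.V b) (Q.V (Q.next b))) := by
  rw [disjoint_left]
  intro p hpa hpb
  rcases Nat.even_or_odd' a with ⟨k, rfl | rfl⟩
  · rw [Q.mem_side] at hpa
    rcases Nat.even_or_odd' b with ⟨k', rfl | rfl⟩
    · rw [Q.mem_side] at hpb
      have := Q.hx k k' (by omega) (by omega)
      linarith [hpa.1, hpb.1]
    · rcases Nat.lt_or_ge k' Q.N with h1 | h1
      · rw [Q.mem_top h1] at hpb
        have := Q.hx k k' (by omega) (by omega)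
        linarith [hpa.1, hpb.1]
      · have : k' = Q.N := by omega
        subst this
        rw [Q.mem_base] at hpb
        have h2 := hpa.2
        rw [hpb.2.2, mem_uIcc] at h2
        have h3 := Q.H_pos (j := 2 * k) (by omega) (by omega)
        have h4 := Q.H_pos (j := 2 * k + 1) (by omega) (by omega)
        rcases h2 with h2 | h2
        · linarith [h2.1]
        · linarith [h2.1]
  · have hk : k < Q.N := by omega
    rw [Q.mem_top hk] at hpa
    rcases Nat.even_or_odd' b with ⟨k', rfl | rfl⟩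
    · rw [Q.mem_side] at hpb
      have := Q.hx (k + 1) k' (by omega) (by omega)
      linarith [hpa.2.1, hpb.1]
    · rcases Nat.lt_or_ge k' Q.N with h1 | h1
      · rw [Q.mem_top h1] at hpb
        rcases Nat.lt_or_ge (k + 1) k' with h2 | h2
        · have := Q.hx (k + 1) k' h2 (by omega)
          linarith [hpa.2.1, hpb.1]
        · have h3 : k' = k + 1 := by omega
          subst h3
          exact Q.hne k h1 (hpa.2.2.symm.trans hpb.2.2)
      · have : k' = Q.N := by omega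
        subst this
        rw [Q.mem_base] at hpb
        have := Q.hpos k hk
        linarith [hpa.2.2, hpb.2.2]

instance : NeZero (2 * Q.N + 2) := ⟨by omega⟩

theorem val_succ (i : ZMod (2 * Q.N + 2)) : (i + 1).val = Q.next i.val := by
  have hi := ZMod.val_lt i
  have h1 : (1 : ZMod (2 * Q.N + 2)).val = 1 := by
    have := ZMod.val_cast_of_lt (n := 2 * Q.N + 2) (a := 1) (by omega)
    simpa using this
  unfold next
  split_ifs with h
  · rw [ZMod.val_add, h1, h]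
    exact Nat.mod_self _
  · rw [ZMod.val_add, h1, Nat.mod_eq_of_lt (by omega)]

theorem val_two (i : ZMod (2 * Q.N + 2)) : (i + 2).val = Q.next (Q.next i.val) := by
  rw [show i + 2 = i + 1 + 1 by ring, Q.val_succ, Q.val_succ]

/-- **The histogram as an orthogonal polygon.** -/
noncomputable def poly : OrthPolygon (2 * Q.N + 2) where
  pt i := Q.V i.val
  pos := by omega
  ne i := by
    rw [Q.val_succ]
    intro h
    rcases Nat.mod_two_eq_zero_or_one i.val with h1 | h1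
    · exact (Q.even_step (ZMod.val_lt i) h1).2 (by rw [← h])
    · exact (Q.odd_step (ZMod.val_lt i) h1).2 (by rw [← h])
  axis i := by
    rw [Q.val_succ]
    rcases Nat.mod_two_eq_zero_or_one i.val with h1 | h1
    · exact Or.inl (Q.even_step (ZMod.val_lt i) h1).1
    · exact Or.inr (Q.odd_step (ZMod.val_lt i) h1).1
  corner i := by
    rw [Q.val_succ, Q.val_two]
    have hi := ZMod.val_lt i
    rcases Nat.mod_two_eq_zero_or_one i.val with h1 | h1
    · have h2 := Q.even_step hi h1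
      have h3 := Q.odd_step (Q.next_lt hi) (by rw [Q.next_mod]; omega)
      exact not_collinear_vh h2.1 h2.2 h3.1 h3.2
    · have h2 := Q.odd_step hi h1
      have h3 := Q.even_step (Q.next_lt hi) (by rw [Q.next_mod]; omega)
      exact not_collinear_hv h2.1 h2.2 h3.1 h3.2
  simple i j hij h1 h2 := by
    rw [Q.val_succ, Q.val_succ]
    have hi := ZMod.val_lt i
    have hj := ZMod.val_lt j
    have e1 : i.val ≠ j.val := fun h => hij (ZMod.val_injective _ h)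
    have e2 : i.val ≠ Q.next j.val := fun h => h1 (ZMod.val_injective _ (by rw [h, Q.val_succ]))
    have e3 : j.val ≠ Q.next i.val := fun h => h2 (ZMod.val_injective _ (by rw [h, Q.val_succ]))
    unfold next at e2 e3
    rcases Nat.lt_or_gt_of_ne e1 with h3 | h3
    · refine Q.disj ?_ hj ?_
      · rw [if_neg (by omega)] at e3
        omega
      · rintro ⟨h4, h5⟩
        rw [if_pos h5] at e2
        exact e2 h4
    · refine (Q.disj ?_ hi ?_).symm
      · rw [if_neg (by omega)] at e2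
        omega
      · rintro ⟨h4, h5⟩
        rw [if_pos h5] at e3
        exact e3 h4

theorem pt_eq (i : ZMod (2 * Q.N + 2)) : Q.poly.pt i = Q.V i.val := rfl

/-- the vertex with index `j`, as an element of `ZMod (2 N + 2)` -/
def ix (j : ℕ) : ZMod (2 * Q.N + 2) := (j : ZMod (2 * Q.N + 2))

theorem ix_val {j : ℕ} (hj : j < 2 * Q.N + 2) : (Q.ix j).val = j :=
  ZMod.val_cast_of_lt hj

theorem pt_ix {j : ℕ} (hj : j < 2 * Q.N + 2) : Q.poly.pt (Q.ix j) = Q.V j := by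
  rw [pt_eq, Q.ix_val hj]

theorem ix_of_val (i : ZMod (2 * Q.N + 2)) : Q.ix i.val = i := by
  unfold ix
  rw [ZMod.natCast_val, ZMod.cast_id]

/-- the left and the right end of the top of column `k` -/
theorem pt_l {k : ℕ} (hk : k < Q.N) : Q.poly.pt (Q.ix (2 * k + 1)) = (Q.x k, Q.h k) := by
  rw [Q.pt_ix (by omega), Q.V_left hk]

theorem pt_r {k : ℕ} (hk : k < Q.N) : Q.poly.pt (Q.ix (2 * k + 2)) = (Q.x (k + 1), Q.h k) := by
  rw [Q.pt_ix (by omega), Q.V_right hk]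

theorem ix_inj {a b : ℕ} (ha : a < 2 * Q.N + 2) (hb : b < 2 * Q.N + 2) (h : Q.ix a = Q.ix b) :
    a = b := by
  rw [← Q.ix_val ha, h, Q.ix_val hb]

/-- every vertex is a base corner or an end of the top of a column -/
theorem pt_cases (i : ZMod (2 * Q.N + 2)) :
    i = Q.ix 0 ∨ i = Q.ix (2 * Q.N + 1) ∨ (∃ k < Q.N, i = Q.ix (2 * k + 1)) ∨
      ∃ k < Q.N, i = Q.ix (2 * k + 2) := by
  have hi := ZMod.val_lt i
  have h0 := Q.ix_of_val i
  generalize i.val = j at hi h0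
  subst h0
  by_cases h1 : j = 0
  · exact Or.inl (by rw [h1])
  by_cases h2 : j = 2 * Q.N + 1
  · exact Or.inr (Or.inl (by rw [h2]))
  refine Or.inr (Or.inr ?_)
  rcases Nat.even_or_odd' j with ⟨k, rfl | rfl⟩
  · exact Or.inr ⟨k - 1, by omega, by rw [show 2 * (k - 1) + 2 = 2 * k by omega]⟩
  · exact Or.inl ⟨k, by omega, rfl⟩

/-- The boundary of the histogram. -/
theorem mem_boundary (p : ℝ × ℝ) :
    p ∈ Q.poly.boundary ↔
      (Q.x 0 ≤ p.1 ∧ p.1 ≤ Q.x Q.N ∧ p.2 = 0) ∨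
      (∃ k < Q.N, Q.x k ≤ p.1 ∧ p.1 ≤ Q.x (k + 1) ∧ p.2 = Q.h k) ∨
      ∃ k ≤ Q.N, p.1 = Q.x k ∧ p.2 ∈ uIcc (Q.H (2 * k)) (Q.H (2 * k + 1)) := by
  unfold OrthPolygon.boundary
  rw [mem_iUnion]
  constructor
  · rintro ⟨i, hi⟩
    rw [pt_eq, pt_eq, Q.val_succ] at hi
    have hlt := ZMod.val_lt i
    generalize i.val = j at hi hlt
    rcases Nat.even_or_odd' j with ⟨k, rfl | rfl⟩
    · rw [Q.mem_side] at hi
      exact Or.inr (Or.inr ⟨k, by omega, hi⟩)
    · rcases Nat.lt_or_ge k Q.N with h1 | h1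
      · rw [Q.mem_top h1] at hi
        exact Or.inr (Or.inl ⟨k, h1, hi⟩)
      · have : k = Q.N := by omega
        subst this
        rw [Q.mem_base] at hi
        exact Or.inl hi
  · rintro (h | ⟨k, hk, h⟩ | ⟨k, hk, h⟩)
    · refine ⟨Q.ix (2 * Q.N + 1), ?_⟩
      rw [pt_eq, pt_eq, Q.val_succ, Q.ix_val (by omega), Q.mem_base]
      exact h
    · refine ⟨Q.ix (2 * k + 1), ?_⟩
      rw [pt_eq, pt_eq, Q.val_succ, Q.ix_val (by omega), Q.mem_top hk]
      exact h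
    · refine ⟨Q.ix (2 * k), ?_⟩
      rw [pt_eq, pt_eq, Q.val_succ, Q.ix_val (by omega), Q.mem_side]
      exact h

end Hist

end Pool.Agent.Helper67.DY
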