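import Pool.Agent.Helper67.PY.Polygon

/-!
# Sets of vertices as sets of points
-/

namespace Pool.Agent.Helper67.DY

open Pool.Agent.Helper67.PY

/-- The vertices of an orthogonal polygon are distinct points. -/
theorem pt_injective {n : ℕ} (P : OrthPolygon n) : Function.Injective P.pt := by
  intro i j hij
  by_contra hne
  have h1 : i ≠ j + 1 := by
    rintro rfl
    exact P.ne j hij.symm
  have h2 : j ≠ i + 1 := by
    rintro rfl
    exact P.ne i hij
  refine Set.disjoint_left.1 (P.simple i j hne h1 h2) (left_mem_segment ℝ _ _) ?_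
  rw [hij]
  exact left_mem_segment ℝ _ _

/-- A lower bound for index sets of guards is a lower bound for sets of vertices (points). -/
theorem lower_points {n : ℕ} (P : OrthPolygon n) {A B : Set (ℝ × ℝ)} {K : ℕ}
    (h : ∀ S : Finset (ZMod n), (∀ p ∈ A, ∃ i ∈ S, segment ℝ (P.pt i) p ⊆ A) →
      (∀ p ∈ B, ∃ i ∈ S, segment ℝ (P.pt i) p ⊆ B) → K ≤ S.card)
    (S : Finset (ℝ × ℝ)) (hS : ∀ v ∈ S, ∃ i, P.pt i = v)
    (hA : ∀ p ∈ A, ∃ v ∈ S, segment ℝ v p ⊆ A) (hB : ∀ p ∈ B, ∃ v ∈ S, segment ℝ v p ⊆ B) :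
    K ≤ S.card := by
  classical
  have hmem : ∀ i, i ∈ S.preimage P.pt ((pt_injective P).injOn) ↔ P.pt i ∈ S := fun i =>
    Finset.mem_preimage
  refine (h (S.preimage P.pt ((pt_injective P).injOn)) ?_ ?_).trans ?_
  · intro p hp
    obtain ⟨v, hv, hs⟩ := hA p hp
    obtain ⟨i, rfl⟩ := hS v hv
    exact ⟨i, (hmem i).2 hv, hs⟩
  · intro p hp
    obtain ⟨v, hv, hs⟩ := hB p hp
    obtain ⟨i, rfl⟩ := hS v hv
    exact ⟨i, (hmem i).2 hv, hs⟩
  · refine Finset.card_le_card_of_injOn P.pt (fun i hi => (hmem i).1 hi)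
      ((pt_injective P).injOn)

end Pool.Agent.Helper67.DY
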